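import Pool.Agent.H36.RP.Targets
import Pool.Agent.H42.LF.UM

/-!
# MW. The mean of a sequence of windows
-/

set_option autoImplicit false

open Filter Topology Finset

namespace Pool.Agent.H14.RP

open Pool.Agent.H36.RP
open Pool.Agent.H91.LF (Mean Dil Bdd)
open Pool.Agent.H42.LF (hyp_le exists_lim)

/-- the sum over a window -/
noncomputable def Wm (g : ℤ → ℝ) (Y Z : ℕ) : ℝ := ∑ n ∈ Icc Y Z, g n / n

theorem wm_succ (g : ℤ → ℝ) (Y j : ℕ) :
    Wm g Y (Y + j + 1) = Wm g Y (Y + j) + g ((Y + j + 1 : ℕ) : ℤ) / ((Y + j + 1 : ℕ) : ℝ) := by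
  unfold Wm
  rw [Finset.sum_Icc_succ_top (by omega)]

theorem wm_self (g : ℤ → ℝ) (Y : ℕ) : Wm g Y Y = g Y / Y := by
  unfold Wm
  rw [Finset.Icc_self, Finset.sum_singleton]

theorem wm_one_ge (Y j : ℕ) (hY : 1 ≤ Y) :
    Real.log (((Y + j : ℕ) : ℝ) / Y) ≤ Wm (fun _ => 1) Y (Y + j) := by
  have hY0 : (0 : ℝ) < Y := by exact_mod_cast hY
  have key : ∀ j : ℕ, Real.log (((Y + j + 1 : ℕ) : ℝ) / Y) ≤ Wm (fun _ => 1) Y (Y + j) := by
    intro j
    induction j with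
    | zero =>
      change Real.log (((Y + 1 : ℕ) : ℝ) / Y) ≤ Wm (fun _ => 1) Y Y
      rw [wm_self]
      have h1 : ((Y + 1 : ℕ) : ℝ) / Y = 1 + 1 / Y := by
        push_cast
        field_simp
      rw [h1]
      have h2 := Real.log_le_sub_one_of_pos (show (0 : ℝ) < 1 + 1 / Y by positivity)
      linarith
    | succ j ih =>
      rw [← Nat.add_assoc, wm_succ]
      have hp : (0 : ℝ) < ((Y + j + 1 : ℕ) : ℝ) := by positivity
      have h1 : ((Y + j + 1 + 1 : ℕ) : ℝ) / Y = ((Y + j + 1 : ℕ) : ℝ) / Y *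
          (1 + 1 / ((Y + j + 1 : ℕ) : ℝ)) := by
        field_simp
        push_cast
        ring
      rw [h1, Real.log_mul (by positivity) (by positivity)]
      have h2 := Real.log_le_sub_one_of_pos (show (0 : ℝ) < 1 + 1 / ((Y + j + 1 : ℕ) : ℝ) by
        positivity)
      linarith
  refine le_trans (Real.log_le_log (by positivity) ?_) (key j)
  refine div_le_div_of_nonneg_right ?_ hY0.le
  push_cast
  linarith

theorem wm_one_le (Y j : ℕ) (hY : 1 ≤ Y) :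
    Wm (fun _ => 1) Y (Y + j) ≤ 1 + Real.log (((Y + j : ℕ) : ℝ) / Y) := by
  have hY0 : (0 : ℝ) < Y := by exact_mod_cast hY
  induction j with
  | zero =>
    rw [Nat.add_zero, wm_self, div_self hY0.ne', Real.log_one, add_zero]
    rw [div_le_one hY0]
    exact_mod_cast hY
  | succ j ih =>
    rw [← Nat.add_assoc, wm_succ]
    have hp : (0 : ℝ) < ((Y + j : ℕ) : ℝ) := by positivity
    have hp1 : (0 : ℝ) < ((Y + j + 1 : ℕ) : ℝ) := by positivity
    have h1 : ((Y + j : ℕ) : ℝ) / Y = ((Y + j + 1 : ℕ) : ℝ) / Y *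
        (1 - 1 / ((Y + j + 1 : ℕ) : ℝ)) := by
      field_simp
      push_cast
      ring
    have h3 : (0 : ℝ) < 1 - 1 / ((Y + j + 1 : ℕ) : ℝ) := by
      have : 1 - 1 / ((Y + j + 1 : ℕ) : ℝ) = ((Y + j : ℕ) : ℝ) / ((Y + j + 1 : ℕ) : ℝ) := by
        field_simp
        push_cast
        ring
      rw [this]
      positivity
    rw [h1, Real.log_mul (by positivity) h3.ne'] at ih
    have h2 := Real.log_le_sub_one_of_pos h3
    linarith

theorem wm_abs (g : ℤ → ℝ) (C : ℝ) (hg : ∀ n, |g n| ≤ C) (Y Z : ℕ) :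
    |Wm g Y Z| ≤ C * Wm (fun _ => 1) Y Z := by
  unfold Wm
  rw [Finset.mul_sum]
  refine (Finset.abs_sum_le_sum_abs _ _).trans (Finset.sum_le_sum fun n _ => ?_)
  rw [abs_div, Nat.abs_cast, mul_one_div]
  exact div_le_div_of_nonneg_right (hg _) (Nat.cast_nonneg _)

theorem wm_shift (g : ℤ → ℝ) (C : ℝ) (hg : ∀ n, |g n| ≤ C) (Y j : ℕ) (hY : 1 ≤ Y) :
    |Wm (fun n => g (n + 1)) Y (Y + j) - Wm g Y (Y + j)| ≤ 3 * C := by
  have hY0 : (1 : ℝ) ≤ Y := by exact_mod_cast hY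
  have hC : 0 ≤ C := (abs_nonneg _).trans (hg 0)
  have key : |Wm (fun n => g (n + 1)) Y (Y + j) - Wm g Y (Y + j) -
      g ((Y + j + 1 : ℕ) : ℤ) / ((Y + j : ℕ) : ℝ)| ≤ C * (2 - 1 / ((Y + j : ℕ) : ℝ)) := by
    induction j with
    | zero =>
      rw [Nat.add_zero, wm_self, wm_self]
      have h1 : g ((Y : ℤ) + 1) / (Y : ℝ) - g Y / Y - g ((Y + 1 : ℕ) : ℤ) / (Y : ℝ) =
          -(g Y / Y) := by
        push_cast
        ring
      rw [h1, abs_neg, abs_div, Nat.abs_cast]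
      have h2 : |g Y| / (Y : ℝ) ≤ C * (1 / Y) := by
        rw [mul_one_div]
        exact div_le_div_of_nonneg_right (hg _) (by positivity)
      have h3 : (1 : ℝ) / Y ≤ 1 := by
        rw [div_le_one (by linarith)]
        exact hY0
      refine h2.trans (mul_le_mul_of_nonneg_left ?_ hC)
      linarith
    | succ j ih =>
      rw [← Nat.add_assoc, wm_succ, wm_succ]
      have hp : (0 : ℝ) < ((Y + j : ℕ) : ℝ) := by
        have : 0 < Y + j := by omega
        exact_mod_cast this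
      have hp1 : (0 : ℝ) < ((Y + j + 1 : ℕ) : ℝ) := by positivity
      have h1 : Wm (fun n => g (n + 1)) Y (Y + j) +
          g (((Y + j + 1 : ℕ) : ℤ) + 1) / ((Y + j + 1 : ℕ) : ℝ) -
          (Wm g Y (Y + j) + g ((Y + j + 1 : ℕ) : ℤ) / ((Y + j + 1 : ℕ) : ℝ)) -
          g ((Y + j + 1 + 1 : ℕ) : ℤ) / ((Y + j + 1 : ℕ) : ℝ) =
          (Wm (fun n => g (n + 1)) Y (Y + j) - Wm g Y (Y + j) -
            g ((Y + j + 1 : ℕ) : ℤ) / ((Y + j : ℕ) : ℝ)) +
          g ((Y + j + 1 : ℕ) : ℤ) * (1 / ((Y + j : ℕ) : ℝ) - 1 / ((Y + j + 1 : ℕ) : ℝ)) := by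
        have : ((Y + j + 1 + 1 : ℕ) : ℤ) = ((Y + j + 1 : ℕ) : ℤ) + 1 := by push_cast; ring
        rw [this]
        ring
      rw [h1]
      refine (abs_add_le _ _).trans ?_
      have h4 : 0 ≤ 1 / ((Y + j : ℕ) : ℝ) - 1 / ((Y + j + 1 : ℕ) : ℝ) := by
        rw [sub_nonneg]
        refine one_div_le_one_div_of_le hp ?_
        push_cast
        linarith
      have h5 : |g ((Y + j + 1 : ℕ) : ℤ) * (1 / ((Y + j : ℕ) : ℝ) -
          1 / ((Y + j + 1 : ℕ) : ℝ))| ≤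
          C * (1 / ((Y + j : ℕ) : ℝ) - 1 / ((Y + j + 1 : ℕ) : ℝ)) := by
        rw [abs_mul, abs_of_nonneg h4]
        exact mul_le_mul_of_nonneg_right (hg _) h4
      linarith
  have hp : (1 : ℝ) ≤ ((Y + j : ℕ) : ℝ) := by
    have : 1 ≤ Y + j := by omega
    exact_mod_cast this
  have h2 : |g ((Y + j + 1 : ℕ) : ℤ) / ((Y + j : ℕ) : ℝ)| ≤ C * 1 := by
    rw [abs_div, Nat.abs_cast, div_le_iff₀ (by linarith)]
    have := hg ((Y + j + 1 : ℕ) : ℤ)
    nlinarith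
  have h3 : C * (2 - 1 / ((Y + j : ℕ) : ℝ)) ≤ C * 2 := by
    refine mul_le_mul_of_nonneg_left ?_ hC
    have : 0 ≤ 1 / ((Y + j : ℕ) : ℝ) := by positivity
    linarith
  have h4 := abs_add_le (Wm (fun n => g (n + 1)) Y (Y + j) - Wm g Y (Y + j) -
    g ((Y + j + 1 : ℕ) : ℤ) / ((Y + j : ℕ) : ℝ)) (g ((Y + j + 1 : ℕ) : ℤ) / ((Y + j : ℕ) : ℝ))
  rw [sub_add_cancel] at h4
  linarith

theorem wm_le_of (Y Z : ℕ) (hY : 1 ≤ Y) (hYZ : Y ≤ Z) :
    Wm (fun _ => 1) Y Z ≤ 1 + Real.log ((Z : ℝ) / Y) := by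
  obtain ⟨j, rfl⟩ := Nat.exists_eq_add_of_le hYZ
  exact wm_one_le Y j hY

theorem wm_ge_of (Y Z : ℕ) (hY : 1 ≤ Y) (hYZ : Y ≤ Z) :
    Real.log ((Z : ℝ) / Y) ≤ Wm (fun _ => 1) Y Z := by
  obtain ⟨j, rfl⟩ := Nat.exists_eq_add_of_le hYZ
  exact wm_one_ge Y j hY

open Classical in
/-- dilation of a function -/
noncomputable def dl (p : ℕ) (g : ℤ → ℝ) (n : ℤ) : ℝ :=
  (p : ℝ) * if (p : ℤ) ∣ n then g (n / p) else 0

theorem wm_dl (g : ℤ → ℝ) (p : ℕ) (hp : 1 ≤ p) (Y Z : ℕ) (hY : 1 ≤ Y) :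
    Wm (dl p g) Y Z = ∑ m ∈ (Icc 1 Z).filter (fun m => Y ≤ p * m ∧ p * m ≤ Z), g m / m := by
  classical
  have hp0 : (0 : ℝ) < p := by exact_mod_cast hp
  unfold Wm
  rw [← Finset.sum_filter_add_sum_filter_not (Icc Y Z) (fun n => p ∣ n)]
  have h1 : ∑ n ∈ (Icc Y Z).filter (fun n => ¬ p ∣ n), dl p g n / n = 0 := by
    refine Finset.sum_eq_zero fun n hn => ?_
    have h2 := (Finset.mem_filter.1 hn).2
    unfold dl
    rw [if_neg (by exact_mod_cast h2), mul_zero, zero_div]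
  rw [h1, add_zero]
  symm
  refine Finset.sum_bij (fun m _ => p * m) ?_ ?_ ?_ ?_
  · intro m hm
    rw [Finset.mem_filter, Finset.mem_Icc] at hm
    rw [Finset.mem_filter, Finset.mem_Icc]
    exact ⟨hm.2, dvd_mul_right p m⟩
  · intro a _ b _ hab
    exact Nat.eq_of_mul_eq_mul_left (by omega) hab
  · intro n hn
    rw [Finset.mem_filter, Finset.mem_Icc] at hn
    obtain ⟨m, rfl⟩ := hn.2
    refine ⟨m, ?_, rfl⟩
    rw [Finset.mem_filter, Finset.mem_Icc]
    have h3 : m ≠ 0 := by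
      rintro rfl
      omega
    refine ⟨⟨by omega, le_trans (Nat.le_mul_of_pos_left m (by omega)) hn.1.2⟩, hn.1⟩
  · intro m hm
    unfold dl
    have h4 : (((p * m : ℕ) : ℤ)) = (p : ℤ) * m := by push_cast; ring
    rw [h4, if_pos (dvd_mul_right _ _), Int.mul_ediv_cancel_left _ (by exact_mod_cast (by omega))]
    push_cast
    rw [mul_div_mul_left _ _ hp0.ne']

theorem wm_dil (g : ℤ → ℝ) (C : ℝ) (hg : ∀ n, |g n| ≤ C) (p : ℕ) (hp : 1 ≤ p) (Y Z : ℕ)
    (hY : 1 ≤ Y) (hYZ : Y ≤ Z) :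
    |Wm (dl p g) Y Z - Wm g Y Z| ≤ C * (2 * (1 + Real.log p)) := by
  classical
  have hC : 0 ≤ C := (abs_nonneg _).trans (hg 0)
  have hp0 : (0 : ℝ) < p := by exact_mod_cast hp
  have hY0 : (0 : ℝ) < Y := by exact_mod_cast hY
  have hZ0 : (0 : ℝ) < Z := by
    have : 0 < Z := by omega
    exact_mod_cast this
  rw [wm_dl g p hp Y Z hY]
  set A := (Icc 1 Z).filter (fun m => Y ≤ p * m ∧ p * m ≤ Z) with hA
  have h1 : ∑ m ∈ A, g m / m - Wm g Y Z =
      ∑ m ∈ A \ Icc Y Z, g m / m - ∑ m ∈ Icc Y Z \ A, g m / m := by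
    unfold Wm
    rw [← Finset.sum_inter_add_sum_sdiff A (Icc Y Z) (fun m => g m / m),
      ← Finset.sum_inter_add_sum_sdiff (Icc Y Z) A (fun m => g m / m), Finset.inter_comm]
    ring
  have h2 : ∀ S : Finset ℕ, |∑ m ∈ S, g m / m| ≤ C * ∑ m ∈ S, 1 / (m : ℝ) := by
    intro S
    rw [Finset.mul_sum]
    refine (Finset.abs_sum_le_sum_abs _ _).trans (Finset.sum_le_sum fun n _ => ?_)
    rw [abs_div, Nat.abs_cast, mul_one_div]
    exact div_le_div_of_nonneg_right (hg _) (Nat.cast_nonneg _)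
  have h3 : ∑ m ∈ A \ Icc Y Z, 1 / (m : ℝ) ≤ 1 + Real.log p := by
    obtain ⟨a, ha⟩ : ∃ a, a = (Y + p - 1) / p := ⟨_, rfl⟩
    have ha1 : 1 ≤ a := by
      rw [ha, Nat.one_le_div_iff (by omega)]
      omega
    have ha2 : Y ≤ p * a := by
      rw [ha]
      have := Nat.div_add_mod (Y + p - 1) p
      have := Nat.mod_lt (Y + p - 1) (show 0 < p by omega)
      omega
    have ha3 : a ≤ Y := by
      rw [ha]
      refine Nat.div_le_of_le_mul ?_
      have : Y + p ≤ p * Y + 1 := by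
        obtain ⟨q, rfl⟩ := Nat.exists_eq_add_of_le hp
        obtain ⟨w, rfl⟩ := Nat.exists_eq_add_of_le hY
        ring_nf
        nlinarith [Nat.zero_le (q * w)]
      omega
    have h4 : A \ Icc Y Z ⊆ Icc a Y := by
      intro m hm
      rw [Finset.mem_sdiff, hA, Finset.mem_filter, Finset.mem_Icc, Finset.mem_Icc] at hm
      rw [Finset.mem_Icc]
      obtain ⟨⟨⟨h5, h6⟩, h7, h8⟩, h9⟩ := hm
      constructor
      · rw [ha]
        rw [Nat.div_le_iff_le_mul_add_pred (by omega)]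
        have : m * p = p * m := mul_comm _ _
        omega
      · omega
    refine (Finset.sum_le_sum_of_subset_of_nonneg h4 (fun _ _ _ => by positivity)).trans ?_
    refine (wm_le_of a Y ha1 ha3).trans ?_
    have ha0 : (0 : ℝ) < a := by exact_mod_cast ha1
    have h5 : (Y : ℝ) / a ≤ p := by
      rw [div_le_iff₀ ha0]
      exact_mod_cast ha2
    have := Real.log_le_log (by positivity) h5
    linarith
  have h4 : ∑ m ∈ Icc Y Z \ A, 1 / (m : ℝ) ≤ 1 + Real.log p := by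
    obtain ⟨b, hb⟩ : ∃ b, b = Z / p + 1 := ⟨_, rfl⟩
    have hb1 : 1 ≤ b := by
      rw [hb]
      exact Nat.le_add_left 1 _
    have hb2 : Z < p * b := by
      rw [hb]
      have := Nat.div_add_mod Z p
      have := Nat.mod_lt Z (show 0 < p by omega)
      rw [mul_add, mul_one]
      omega
    have h5 : Icc Y Z \ A ⊆ Icc b Z := by
      intro m hm
      rw [Finset.mem_sdiff, hA, Finset.mem_filter, Finset.mem_Icc, Finset.mem_Icc] at hm
      rw [Finset.mem_Icc]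
      obtain ⟨⟨h6, h7⟩, h8⟩ := hm
      have h9 : m ≤ p * m := Nat.le_mul_of_pos_left m (by omega)
      have h10 : ¬ p * m ≤ Z := fun h => h8 ⟨⟨by omega, h7⟩, by omega, h⟩
      refine ⟨?_, h7⟩
      rw [hb, Nat.succ_le_iff, Nat.div_lt_iff_lt_mul (by omega), mul_comm]
      omega
    refine (Finset.sum_le_sum_of_subset_of_nonneg h5 (fun _ _ _ => by positivity)).trans ?_
    rcases le_or_gt b Z with hbZ | hbZ
    · refine (wm_le_of b Z hb1 hbZ).trans ?_
      have hb0 : (0 : ℝ) < b := by exact_mod_cast hb1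
      have h6 : (Z : ℝ) / b ≤ p := by
        rw [div_le_iff₀ hb0]
        exact_mod_cast hb2.le
      have := Real.log_le_log (by positivity) h6
      linarith
    · rw [Finset.Icc_eq_empty (by omega), Finset.sum_empty]
      have : 0 ≤ Real.log p := Real.log_nonneg (by exact_mod_cast hp)
      linarith
  rw [h1]
  have h5 := h2 (A \ Icc Y Z)
  have h6 := h2 (Icc Y Z \ A)
  have h7 := abs_sub (∑ m ∈ A \ Icc Y Z, g m / m) (∑ m ∈ Icc Y Z \ A, g m / m)
  have h8 := mul_le_mul_of_nonneg_left h3 hC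
  have h9 := mul_le_mul_of_nonneg_left h4 hC
  linarith

/-- eventually bounded sequences converge along the hyperfilter -/
theorem lim_ev (u : ℕ → ℝ) (C : ℝ) (hu : ∀ᶠ k in atTop, |u k| ≤ C) :
    ∃ a, Tendsto u (Filter.hyperfilter ℕ : Filter ℕ) (𝓝 a) := by
  have hC : 0 ≤ |C| := abs_nonneg C
  obtain ⟨a, ha⟩ := exists_lim (fun k => max (-|C|) (min |C| (u k))) |C| (fun k => by
    rw [abs_le]
    exact ⟨le_max_left _ _, max_le (by linarith) (min_le_left _ _)⟩)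
  refine ⟨a, ha.congr' ?_⟩
  filter_upwards [hyp_le hu] with k hk
  have h1 := abs_le.1 (hk.trans (le_abs_self C))
  rw [min_eq_right h1.2, max_eq_right h1.1]

/-- the normalized sum over a window -/
noncomputable def Ww (Y Z : ℕ → ℕ) (g : ℤ → ℝ) (k : ℕ) : ℝ :=
  Wm g (Y k) (Z k) / Real.log ((Z k : ℝ) / Y k)

/-- the limit of the normalized sums -/
noncomputable def Lw (Y Z : ℕ → ℕ) (g : ℤ → ℝ) : ℝ :=
  limUnder (Filter.hyperfilter ℕ : Filter ℕ) (Ww Y Z g)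

section

variable {Y Z : ℕ → ℕ} (hYZ : ∀ k, 1 ≤ Y k ∧ Y k ≤ Z k)
  (hlog : Tendsto (fun k => Real.log ((Z k : ℝ) / Y k)) atTop atTop)

include hYZ hlog

theorem lw_tendsto (g : ℤ → ℝ) (C : ℝ) (hg : ∀ n, |g n| ≤ C) :
    Tendsto (Ww Y Z g) (Filter.hyperfilter ℕ : Filter ℕ) (𝓝 (Lw Y Z g)) := by
  have hC : 0 ≤ C := (abs_nonneg _).trans (hg 0)
  refine tendsto_nhds_limUnder (lim_ev _ (C * 2) ?_)
  filter_upwards [hlog.eventually_ge_atTop 1] with k hk
  unfold Ww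
  have h1 := wm_abs g C hg (Y k) (Z k)
  have h2 := wm_le_of (Y k) (Z k) (hYZ k).1 (hYZ k).2
  rw [abs_div, abs_of_pos (by linarith : (0 : ℝ) < Real.log ((Z k : ℝ) / Y k)),
    div_le_iff₀ (by linarith)]
  refine h1.trans ?_
  rw [mul_assoc]
  exact mul_le_mul_of_nonneg_left (by linarith) hC

theorem lw_close (g g' : ℤ → ℝ) (C K : ℝ) (hg : ∀ n, |g n| ≤ C) (hg' : ∀ n, |g' n| ≤ C)
    (h : ∀ k, |Wm g' (Y k) (Z k) - Wm g (Y k) (Z k)| ≤ K) : Lw Y Z g' = Lw Y Z g := by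
  have h1 := lw_tendsto hYZ hlog g C hg
  have h2 := lw_tendsto hYZ hlog g' C hg'
  have h3 : Tendsto (fun k => K / Real.log ((Z k : ℝ) / Y k)) atTop (𝓝 0) :=
    hlog.const_div_atTop K
  have h4 : Tendsto (fun k => Ww Y Z g' k - Ww Y Z g k) atTop (𝓝 0) := by
    refine squeeze_zero_norm' ?_ h3
    filter_upwards [hlog.eventually_ge_atTop 1] with k hk
    unfold Ww
    rw [← sub_div, Real.norm_eq_abs, abs_div,
      abs_of_pos (by linarith : (0 : ℝ) < Real.log ((Z k : ℝ) / Y k))]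
    exact div_le_div_of_nonneg_right (h k) (by linarith)
  have h5 := tendsto_nhds_unique (h2.sub h1) (h4.mono_left hyp_le)
  linarith

theorem lw_shift1 (g : ℤ → ℝ) (C : ℝ) (hg : ∀ n, |g n| ≤ C) :
    Lw Y Z (fun n => g (n + 1)) = Lw Y Z g := by
  refine lw_close hYZ hlog g _ C (3 * C) hg (fun n => hg _) fun k => ?_
  obtain ⟨j, hj⟩ := Nat.exists_eq_add_of_le (hYZ k).2
  rw [hj]
  exact wm_shift g C hg (Y k) j (hYZ k).1

theorem lw_shift (z : ℤ) (g : ℤ → ℝ) (C : ℝ) (hg : ∀ n, |g n| ≤ C) :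
    Lw Y Z (fun n => g (n + z)) = Lw Y Z g := by
  induction z using Int.induction_on with
  | zero => simp only [add_zero]
  | succ i ih =>
    have h1 := lw_shift1 hYZ hlog (fun n => g (n + i)) C (fun n => hg _)
    rw [← ih, ← h1]
    refine congrArg (Lw Y Z) (funext fun n => ?_)
    congr 1
    ring
  | pred i ih =>
    have h1 := lw_shift1 hYZ hlog (fun n => g (n + (-(i : ℤ) - 1))) C (fun n => hg _)
    rw [← ih, ← h1]
    refine congrArg (Lw Y Z) (funext fun n => ?_)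
    congr 1
    ring

theorem lw_add (g g' : ℤ → ℝ) (C C' : ℝ) (hg : ∀ n, |g n| ≤ C) (hg' : ∀ n, |g' n| ≤ C') :
    Lw Y Z (fun n => g n + g' n) = Lw Y Z g + Lw Y Z g' := by
  have h1 := lw_tendsto hYZ hlog g C hg
  have h2 := lw_tendsto hYZ hlog g' C' hg'
  have h3 := lw_tendsto hYZ hlog (fun n => g n + g' n) (C + C')
    (fun n => (abs_add_le _ _).trans (add_le_add (hg n) (hg' n)))
  refine tendsto_nhds_unique h3 ((h1.add h2).congr fun k => ?_)
  unfold Ww Wm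
  rw [← add_div, ← Finset.sum_add_distrib]
  congr 1
  exact Finset.sum_congr rfl fun n _ => by rw [add_div]

theorem lw_smul (c : ℝ) (g : ℤ → ℝ) (C : ℝ) (hg : ∀ n, |g n| ≤ C) :
    Lw Y Z (fun n => c * g n) = c * Lw Y Z g := by
  have h1 := lw_tendsto hYZ hlog g C hg
  have h3 := lw_tendsto hYZ hlog (fun n => c * g n) (|c| * C) (fun n => by
    rw [abs_mul]
    exact mul_le_mul_of_nonneg_left (hg n) (abs_nonneg c))
  refine tendsto_nhds_unique h3 ((h1.const_mul c).congr fun k => ?_)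
  unfold Ww Wm
  rw [← mul_div_assoc, Finset.mul_sum]
  congr 1
  exact Finset.sum_congr rfl fun n _ => by rw [mul_div_assoc]

theorem lw_nonneg (g : ℤ → ℝ) (C : ℝ) (hg : ∀ n, |g n| ≤ C) (h0 : ∀ n, 0 ≤ g n) :
    0 ≤ Lw Y Z g := by
  have h1 := lw_tendsto hYZ hlog g C hg
  refine ge_of_tendsto h1 (hyp_le ?_)
  filter_upwards [hlog.eventually_ge_atTop 1] with k hk
  unfold Ww Wm
  exact div_nonneg (Finset.sum_nonneg fun n _ => div_nonneg (h0 _) (Nat.cast_nonneg _))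
    (by linarith)

theorem lw_one : Lw Y Z (fun _ => 1) = 1 := by
  have h1 := lw_tendsto hYZ hlog (fun _ => 1) 1 (fun _ => by rw [abs_one])
  have h3 : Tendsto (fun k => 1 / Real.log ((Z k : ℝ) / Y k)) atTop (𝓝 0) :=
    hlog.const_div_atTop 1
  have h4 : Tendsto (fun k => Ww Y Z (fun _ => 1) k - 1) atTop (𝓝 0) := by
    refine squeeze_zero_norm' ?_ h3
    filter_upwards [hlog.eventually_ge_atTop 1] with k hk
    have h5 := wm_le_of (Y k) (Z k) (hYZ k).1 (hYZ k).2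
    have h6 := wm_ge_of (Y k) (Z k) (hYZ k).1 (hYZ k).2
    unfold Ww
    have hpos : (0 : ℝ) < Real.log ((Z k : ℝ) / Y k) := by linarith
    rw [div_sub_one hpos.ne', Real.norm_eq_abs, abs_div, abs_of_pos hpos]
    refine div_le_div_of_nonneg_right ?_ hpos.le
    rw [abs_of_nonneg (by linarith)]
    linarith
  have h5 := tendsto_nhds_unique (h1.sub_const 1) (h4.mono_left hyp_le)
  linarith

theorem lw_dil (p : ℕ) (hp : 1 ≤ p) (g : ℤ → ℝ) (C : ℝ) (hg : ∀ n, |g n| ≤ C) :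
    Lw Y Z (dl p g) = Lw Y Z g := by
  classical
  have hC : 0 ≤ C := (abs_nonneg _).trans (hg 0)
  have hp1 : (1 : ℝ) ≤ p := by exact_mod_cast hp
  refine lw_close hYZ hlog g _ (p * C) (C * (2 * (1 + Real.log p)))
    (fun n => (hg n).trans (by nlinarith)) (fun n => ?_) fun k => ?_
  · unfold dl
    rw [abs_mul, abs_of_nonneg (by linarith : (0 : ℝ) ≤ p)]
    refine mul_le_mul_of_nonneg_left ?_ (by linarith)
    split_ifs
    · exact hg _
    · rw [abs_zero]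
      exact hC
  · exact wm_dil g C hg p hp (Y k) (Z k) (hYZ k).1 (hYZ k).2

end

theorem pf_MW : T_MW := by
  classical
  intro Y Z hYZ hlog
  have hb : ∀ f : (Fin 1 → ℤ) → ℝ, Bdd f → ∃ C, ∀ n : ℤ, |f (fun _ => n)| ≤ C := by
    rintro f ⟨C, hC⟩
    exact ⟨C, fun n => hC _⟩
  refine ⟨⟨fun f => Lw Y Z (fun n => f (fun _ => n)), ?_, ?_, ?_, ?_, ?_⟩, ?_, ?_⟩
  · intro f g hf hg
    obtain ⟨C, hC⟩ := hb f hf
    obtain ⟨D, hD⟩ := hb g hg
    exact lw_add hYZ hlog (fun n => f (fun _ => n)) (fun n => g (fun _ => n)) C D hC hD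
  · intro c f hf
    obtain ⟨C, hC⟩ := hb f hf
    exact lw_smul hYZ hlog c (fun n => f (fun _ => n)) C hC
  · intro f hf h0
    obtain ⟨C, hC⟩ := hb f hf
    exact lw_nonneg hYZ hlog (fun n => f (fun _ => n)) C hC (fun n => h0 _)
  · exact lw_one hYZ hlog
  · intro v f hf
    obtain ⟨C, hC⟩ := hb f hf
    have h1 := lw_shift hYZ hlog (v 0) (fun n => f (fun _ => n)) C hC
    refine Eq.trans (congrArg (Lw Y Z) (funext fun n => ?_)) h1
    change f _ = f _
    congr 1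
    funext i
    rw [Subsingleton.elim i 0]
    rfl
  · intro p hp f hf
    obtain ⟨C, hC⟩ := hb f hf
    have h1 := lw_dil hYZ hlog p hp.one_lt.le (fun n => f (fun _ => n)) C hC
    refine Eq.trans (congrArg (Lw Y Z) (funext fun n => ?_)) h1
    unfold dl
    rw [pow_one]
    beta_reduce
    by_cases h : (p : ℤ) ∣ n
    · rw [if_pos h, if_pos (fun _ : Fin 1 => h)]
    · rw [if_neg h, if_neg (fun h' : ∀ _ : Fin 1, (p : ℤ) ∣ n => h (h' 0))]
  · intro f C L hf hL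
    exact (hL.mono_left hyp_le).limUnder_eq

end Pool.Agent.H14.RP
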